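import Pool.Agent.Q78.WI.Fin
import Pool.Agent.Q182.WI.A1
import Pool.Agent.Q247.WI.A2
import Pool.Agent.Q252.WI.A3
import Pool.Agent.Q214.WI.AB
import Pool.Agent.Q164.WI.TD1
import Pool.Agent.Q164.WI.TD2
import Pool.Agent.Q149.WI.TD3
import Pool.Agent.Q223.WI.TD4
import Pool.Agent.Q184.WI.C1
import Pool.Agent.Q130.WI.C2
import Pool.Agent.Q259.WI.C3
import Pool.Agent.Q129.WI.C4
import Pool.Agent.Q176.WI.C5
import Pool.Agent.Q65.WI.C6
import Pool.Agent.Q65.WI.C7
import Pool.Agent.Q198.WI.C9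
import Pool.Agent.Q110.WI.C10
import Pool.Agent.Q110.WI.D
import Pool.Agent.Q103.WI.E1
import Pool.Agent.Q13.WI.E2
import Pool.Agent.Q285.WI.E3
import Pool.Agent.Q265.WI.E4
import Pool.Agent.Q217.WI.E5pb
import Pool.Agent.Q87.WI.E5a
import Pool.Agent.Q299.WI.E5
import Pool.Agent.Q299.WI.E6
import Pool.Agent.Q299.WI.E7a
import Pool.Agent.Q121.WI.E7b
import Pool.Agent.Q58.WI.E8

/-!
# MP_f9c8f0_pr: no Wishart process with non-integer shape parameter

Let `H` be a real Hilbert space, `T` a strongly continuous semigroup on `H` with generator `A`,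
`Q` a positive injective bounded operator, and `α` a real number which is not a natural number. If
`A` is not everywhere defined (an unbounded generator), or merely if `H` is infinite-dimensional,
then the martingale problem of the Wishart equation
`dX = (α Q + X A + A* X) dt + √X dW √Q + √Q dW* √X`
has no solution, on any filtered probability space and for any initial value.
-/

open MeasureTheory ProbabilityTheory Filter Topology Set
open scoped NNReal InnerProductSpace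

namespace Pool.Agent.Results.MP_f9c8f0_pr.NoNonIntegerShape

open Pool.Agent.Q78.WI

universe u v

/-- No solution of the Wishart martingale problem for `α ∉ ℕ` and injective `Q`, for every
generator which is not everywhere defined, and for every generator on an infinite-dimensional
space. -/
theorem result {H : Type u} [NormedAddCommGroup H] [InnerProductSpace ℝ H] [CompleteSpace H]
    (T : ℝ → H →L[ℝ] H) (hT : IsSemigroup T)
    (Q : H →L[ℝ] H) (hQ : Q.IsPositive) (hinj : Function.Injective Q)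
    (hA : (∃ g : H, ∀ y : H, ¬ Gen T g y) ∨ ¬ FiniteDimensional ℝ H)
    (α : ℝ) (hα : ∀ m : ℕ, α ≠ m)
    {Ω : Type v} [mΩ : MeasurableSpace Ω] (P : Measure Ω) [IsProbabilityMeasure P]
    (ℱ : Filtration ℝ≥0 mΩ) (X : ℝ≥0 → Ω → H →L[ℝ] H) :
    ¬ Solution P ℱ T Q α X := by
  have a1 : S_A1.{u} := Pool.Agent.Q182.WI.a1
  have a2 : S_A2.{u} := Pool.Agent.Q247.WI.a2 a1
  have a3 : S_A3.{u} := Pool.Agent.Q252.WI.a3
  have a4 : S_A4.{u} := _root_.Q214.WI.a4
  have b : S_B.{u} := _root_.Q214.WI.b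
  have td1 : S_TD1 := Pool.Agent.Q164.WI.td1
  have td2 : S_TD2.{v} := Pool.Agent.Q164.WI.td2 td1
  have td3 : S_TD3 := Pool.Agent.Q149.WI.td3
  have td4 : S_TD4.{v} := Pool.Agent.Q223.WI.td4 td2 td3
  have c1 : S_C1.{u} := Pool.Agent.Q184.WI.c1
  have c3 : S_C3.{u} := Pool.Agent.Q259.WI.c3
  have c2 : S_C2.{u} := Pool.Agent.Q130.WI.c2 a3 c3
  have c4 : S_C4 := Pool.Agent.Q129.WI.c4
  have c5 : S_C5.{u} := Pool.Agent.Q176.WI.c5 c1 c2 c3 c4
  have c6 : S_C6.{u} := Pool.Agent.Q65.WI.c6 c2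
  have c7 : S_C7.{u} := Pool.Agent.Q65.WI.c7 c2
  have c8 : S_C8.{u, v} := Pool.Agent.Q65.WI.c8 c6
  have c9 : S_C9.{u, v} := Pool.Agent.Q198.WI.c9 b c1 c2
  have c10 : S_C10.{u, v} := Pool.Agent.Q110.WI.c10 td4 c5 c6 c7 c8 c9
  have dl : S_D.{u, v} := Pool.Agent.Q110.WI.LT.dlap c7 c8 c10
  have e1 : S_E1 := Pool.Agent.Q103.WI.e1
  have e2 : S_E2 := Pool.Agent.Q13.WI.e2
  have e3 : S_E3.{v} := Pool.Agent.Q285.WI.e3
  have e4 : S_E4 := Pool.Agent.Q265.WI.e4
  have e5 : S_E5.{v} := Pool.Agent.Q299.WI.e5 e2 e3 e4 Pool.Agent.Q217.WI.e5p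
    Pool.Agent.Q87.WI.e5a Pool.Agent.Q217.WI.e5b
  have e6 : S_E6.{v} := Pool.Agent.Q299.WI.e6 e5
  have e7 : S_E7b.{v} := Pool.Agent.Q121.WI.e7b e5 e6 Pool.Agent.Q299.WI.e7a
  have e8 : S_E8.{v} := Pool.Agent.Q58.WI.e8 e1 e2 e7
  exact f a2 a3 a4 dl e8 H T hT Q hQ hinj hA.symm α hα Ω P ℱ X

end Pool.Agent.Results.MP_f9c8f0_pr.NoNonIntegerShape
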